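import Pool.Agent.Q296.KForest.Count

/-!
# The edge marginals of the uniform `k`-component forest are not monotone in `k`

The graph is `K_{2,5}` together with the edge `e` joining the two vertices of degree five
(seven vertices, eleven edges): `UF_1[e] = 2/7 < 5/17 = UF_2[e]`.
-/

set_option autoImplicit false

namespace Pool.Agent.Results.MP_bb4aa0_pr.MarginalCanIncrease

open Pool.Agent.Q296.KForest

/-- There are a connected simple graph `G` with seven vertices and an edge `e` of
`G` with `UF_1[ω(e) = 1] = 2/7 < 5/17 = UF_2[ω(e) = 1]`. So `k ↦ UF_k[ω(e) = 1]` is not always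
non-increasing. -/
theorem result :
    (∃ (G : SimpleGraph (Fin 7)) (e : Sym2 (Fin 7)), G.Connected ∧ e ∈ G.edgeSet ∧
      UF G 1 e = 2 / 7 ∧ UF G 2 e = 5 / 17) ∧ ¬ MarginalsNonincreasing :=
  ⟨⟨G0, s(0, 1), connected, mem_edge, UF1, UF2⟩, not_nonincreasing⟩

end Pool.Agent.Results.MP_bb4aa0_pr.MarginalCanIncrease
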